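import Pool.Agent.Helper62.MonoW.ZEvalW
import Pool.Agent.Helper53.Comp.GoalsG

/-!
# Packet P2: ZEvalR, ZrealCont, PoleR
-/

namespace Mono

namespace Comp

open Finset Filter Topology

theorem P2.zreal_eq {n : ℕ} (ν : Fin n → ℕ) (A : Finset (Fin n → ℤ)) (T : Fan n) (s : ℝ) :
    ZrealR (nuR ν) A T s = ZrealW ν A T s := by
  unfold ZrealR ZrealW
  refine Finset.sum_congr rfl fun φ _ => ?_
  congr 1

theorem zEvalR : ZEvalR := by
  intro n ν A T hν hA s hs
  rw [P2.zreal_eq]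
  exact zEvalW n ν hν A T hA s hs

theorem P2.dot_pos {n : ℕ} {w : Fin n → ℝ} (hw : ∀ i, 0 < w i) (T : Fan n)
    {δ : Finset (Fin n → ℤ)} (hδ : T.IsFace δ) {a : Fin n → ℤ} (ha : a ∈ δ) :
    0 < w ⬝ᵥ toR a := by
  have hnn : ∀ i, 0 ≤ a i := T.vert_nonneg a (Fan.IsFace.subset_vert T hδ ha)
  have hne : toR a ≠ 0 := by
    have h1 := Fan.IsFace.indep T hδ
    exact h1.ne_zero (⟨a, ha⟩ : δ)
  obtain ⟨i, hi⟩ : ∃ i, a i ≠ 0 := by
    by_contra hcon
    push Not at hcon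
    exact hne (by funext i; simp [hcon i])
  unfold dotProduct
  refine Finset.sum_pos' (fun j _ => mul_nonneg (hw j).le ?_) ⟨i, Finset.mem_univ _, ?_⟩
  · rw [toR_apply]
    exact_mod_cast hnn j
  · have := lt_of_le_of_ne (hnn i) (Ne.symm hi)
    rw [toR_apply]
    exact mul_pos (hw i) (by exact_mod_cast this)

theorem zrealCont : ZrealCont := by
  intro n w θ A T hw _ hA s hs
  unfold ZrealR
  refine tendsto_finsetSum _ fun φ _ => ?_
  refine Tendsto.const_mul _ ?_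
  refine tendsto_finsetSum _ fun δ hδ => ?_
  have hface : T.IsFace δ := (Fan.mem_faces T).1 (Finset.mem_filter.1 hδ).1
  refine Tendsto.div tendsto_const_nhds ?_ ?_
  · refine tendsto_finsetProd _ fun a _ => ?_
    refine Tendsto.const_add _ ?_
    have h1 : ∀ ε : ℝ, (w + ε • θ) ⬝ᵥ toR a = w ⬝ᵥ toR a + ε * (θ ⬝ᵥ toR a) := by
      intro ε
      rw [add_dotProduct, smul_dotProduct, smul_eq_mul]
    simp only [h1]
    have h2 : Tendsto (fun ε : ℝ => w ⬝ᵥ toR a + ε * (θ ⬝ᵥ toR a)) (𝓝 0)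
        (𝓝 (w ⬝ᵥ toR a + 0 * (θ ⬝ᵥ toR a))) :=
      (tendsto_id.mul_const _).const_add _
    rw [zero_mul, add_zero] at h2
    exact h2.mono_left nhdsWithin_le_nhds
  · rw [Finset.prod_ne_zero_iff]
    intro a ha
    have h1 : 0 ≤ (NA A a : ℝ) := by
      exact_mod_cast H3h.NA_nonneg A hA a
        (T.vert_nonneg a (Fan.IsFace.subset_vert T hface ha))
    have h2 := P2.dot_pos hw T hface ha
    positivity

open Polynomial in
theorem poleR : PoleR := by
  classical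
  intro Z Y G m Q hZ hY s₀ hs₀
  set D' : ℂ[X] := ∏ b ∈ G, (X + C (b : ℂ)) ^ m with hD'
  set Q' : ℂ[X] := Q.map (algebraMap ℝ ℂ) with hQ'
  have hD'e : ∀ z : ℂ, D'.eval z = ∏ b ∈ G, (z + (b : ℂ)) ^ m := by
    intro z
    simp [hD', eval_prod]
  have hpoly : Z.num * D' = Q' * Z.denom := by
    apply Polynomial.eq_of_infinite_eval_eq
    have hinf' := (Set.Ioi_infinite (0 : ℝ)).image (f := fun x : ℝ => (x : ℂ))
      (Complex.ofReal_injective.injOn)
    refine hinf'.mono ?_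
    rintro _ ⟨s, hs, rfl⟩
    obtain ⟨h1, h2⟩ := hZ s hs
    have h3 : RatFunc.eval (RingHom.id ℂ) (s : ℂ) Z =
        Z.num.eval (s : ℂ) / Z.denom.eval (s : ℂ) := by
      simp [RatFunc.eval, eval₂_id]
    rw [h3, div_eq_iff h1] at h2
    have h4 := hY s hs
    have h5 : Q'.eval (s : ℂ) = ((Q.eval s : ℝ) : ℂ) := by
      rw [hQ', eval_map]
      exact eval₂_at_apply (algebraMap ℝ ℂ) s
    simp only [Set.mem_ofPred_eq]
    rw [eval_mul, eval_mul, h2, hD'e, h5, ← h4]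
    push_cast
    ring
  have hdvd : Z.denom ∣ D' := by
    have hc : IsCoprime Z.denom Z.num := (RatFunc.isCoprime_num_denom Z).symm
    exact hc.dvd_of_dvd_mul_left ⟨Q', by rw [hpoly, mul_comm]⟩
  obtain ⟨R, hR⟩ := hdvd
  have h0 : D'.eval s₀ = 0 := by
    rw [hR, eval_mul, hs₀, zero_mul]
  rw [hD'e] at h0
  obtain ⟨b, hb, hb0⟩ := Finset.prod_eq_zero_iff.1 h0
  exact ⟨b, hb, eq_neg_of_add_eq_zero_left (by
    by_contra hne
    exact pow_ne_zero _ hne hb0)⟩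

end Comp

end Mono
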