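import Pool.Agent.Helper61.Mono.ClassKill
import Pool.Agent.Helper53.Comp.GoalsK

/-!
# Packet K5: the kill theorem
-/

namespace Mono

namespace Comp

open Finset MvPolynomial

theorem killThm (h : PairVanish) : KillThm := by
  classical
  intro n Φ Z V w w' σ σ' c c' hσ hσ' hss hlt hone hint0 hStar η hη B hB d y hy hcard
  obtain ⟨hface, hc0, hw⟩ := hσ
  obtain ⟨hface', hc0', hw'⟩ := hσ'
  -- reduction to a monomial
  rw [y.as_sum, Finset.mul_sum, Fan.Esum_sum]
  refine Finset.sum_eq_zero fun m hm => ?_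
  have hmd : m.degree = d := by
    have := hy (mem_support_iff.1 hm)
    rw [Finsupp.degree_eq_weight_one]
    exact this
  have hmon : monomial m (coeff m y) = C (coeff m y) * monomial m (1 : ℝ) := by
    rw [C_mul_monomial, mul_one]
  rw [hmon]
  have hre : (∏ u ∈ B, (X u : MvPolynomial (Fin n → ℤ) ℝ)) * (∏ p ∈ apexR V Z σ' B, X p) *
      (C (coeff m y) * monomial m (1 : ℝ)) = C (coeff m y) *
      ((∏ u ∈ B, X u) * (∏ p ∈ apexR V Z σ' B, X p) * monomial m (1 : ℝ)) := by ring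
  rw [hre, Fan.Esum_C_mul]
  refine mul_eq_zero_of_right _ ?_
  -- notation
  set G := ncore Z σ c with hGdef
  set G' := ncore Z σ' c' with hG'def
  have hmemG : ∀ t, t ∈ G ↔ t ∈ σ ∧ (t ∈ Z ∨ ∀ z : ℤ, c t ≠ z) := by
    intro t
    rw [hGdef]
    exact Finset.mem_filter
  have hmemG' : ∀ t, t ∈ G' ↔ t ∈ σ' ∧ (t ∈ Z ∨ ∀ z : ℤ, c' t ≠ z) := by
    intro t
    rw [hG'def]
    exact Finset.mem_filter
  have hGσ : G ⊆ σ := fun t ht => ((hmemG t).1 ht).1
  have hGσ' : G ⊆ σ' := hGσ.trans hss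
  have hG'σ' : G' ⊆ σ' := fun t ht => ((hmemG' t).1 ht).1
  have hGG' : G ⊆ G' := by
    intro t ht
    obtain ⟨h1, h2⟩ := (hmemG t).1 ht
    refine (hmemG' t).2 ⟨hss h1, ?_⟩
    rcases h2 with h2 | h2
    · exact Or.inl h2
    · refine Or.inr fun z hz => ?_
      have h3 := (hint0 t (hss h1) z hz).2
      exact h2 z (h3 ▸ hz)
  set γ : (Fin n → ℤ) → ℝ := fun t => if t ∈ σ then c t else 0 with hγdef
  have hγσ : ∀ t ∈ σ, γ t = c t := fun t ht => if_pos ht
  have hγn : ∀ t, t ∉ σ → γ t = 0 := fun t ht => if_neg ht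
  -- the vertices outside `G'`
  have hF1 : ∀ t ∈ σ' \ G', t ∉ Z ∧ t ∈ σ ∧ c' t = γ t ∧ ∃ z : ℤ, γ t = z := by
    intro t ht
    rw [Finset.mem_sdiff] at ht
    have h2 : ¬ (t ∈ Z ∨ ∀ z : ℤ, c' t ≠ z) := by
      intro h3
      exact ht.2 ((hmemG' t).2 ⟨ht.1, h3⟩)
    push Not at h2
    obtain ⟨h3, z, hz⟩ := h2
    obtain ⟨h4, h5⟩ := hint0 t ht.1 z hz
    refine ⟨h3, h4, ?_, z, ?_⟩
    · rw [hγσ t h4, h5]
    · rw [hγσ t h4, ← h5, hz]
  have hF2 : ∀ t ∈ G' \ G, c' t - γ t ≠ 0 := by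
    intro t ht h0
    rw [Finset.mem_sdiff] at ht
    have h1 := (hmemG' t).1 ht.1
    by_cases hts : t ∈ σ
    · rw [hγσ t hts] at h0
      have h2 : ¬ (t ∈ Z ∨ ∀ z : ℤ, c t ≠ z) := fun h3 => ht.2 ((hmemG t).2 ⟨hts, h3⟩)
      push Not at h2
      obtain ⟨h3, z, hz⟩ := h2
      rcases h1.2 with h4 | h4
      · exact h3 h4
      · exact h4 z (by linarith)
    · rw [hγn t hts, sub_zero] at h0
      exact hc0' t h1.1 h0
  set P := (σ' \ G').filter (fun t => 0 < γ t) with hPdef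
  set N := (σ' \ G').filter (fun t => γ t < 0) with hNdef
  set A := (G' \ G).filter (fun t => 0 < c' t - γ t) with hAdef
  set D := (G' \ G).filter (fun t => c' t - γ t < 0) with hDdef
  have hPN : σ' \ G' = P ∪ N := by
    ext t
    simp only [hPdef, hNdef, Finset.mem_union, Finset.mem_filter]
    constructor
    · intro ht
      have h1 : γ t ≠ 0 := by
        rw [hγσ t (hF1 t ht).2.1]
        exact hc0 t (hF1 t ht).2.1
      rcases lt_or_gt_of_ne h1 with h1 | h1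
      · exact Or.inr ⟨ht, h1⟩
      · exact Or.inl ⟨ht, h1⟩
    · rintro (h1 | h1) <;> exact h1.1
  have hAD : G' \ G = A ∪ D := by
    ext t
    simp only [hAdef, hDdef, Finset.mem_union, Finset.mem_filter]
    constructor
    · intro ht
      rcases lt_or_gt_of_ne (hF2 t ht) with h1 | h1
      · exact Or.inr ⟨ht, h1⟩
      · exact Or.inl ⟨ht, h1⟩
    · rintro (h1 | h1) <;> exact h1.1
  have hdPN : Disjoint P N := by
    rw [Finset.disjoint_left]
    intro t h1 h2
    rw [hPdef, Finset.mem_filter] at h1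
    rw [hNdef, Finset.mem_filter] at h2
    linarith [h1.2, h2.2]
  have hdAD : Disjoint A D := by
    rw [Finset.disjoint_left]
    intro t h1 h2
    rw [hAdef, Finset.mem_filter] at h1
    rw [hDdef, Finset.mem_filter] at h2
    linarith [h1.2, h2.2]
  have hall : σ' \ G = (P ∪ N) ∪ (A ∪ D) := by
    rw [← hPN, ← hAD]
    ext t
    simp only [Finset.mem_union, Finset.mem_sdiff]
    constructor
    · rintro ⟨h1, h2⟩
      by_cases h3 : t ∈ G'
      · exact Or.inr ⟨h3, h2⟩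
      · exact Or.inl ⟨h1, h3⟩
    · rintro (⟨h1, h2⟩ | ⟨h1, h2⟩)
      · exact ⟨h1, fun h3 => h2 (hGG' h3)⟩
      · exact ⟨hG'σ' h1, h2⟩
  have hdall : Disjoint (P ∪ N) (A ∪ D) := by
    rw [← hPN, ← hAD, Finset.disjoint_left]
    intro t h1 h2
    exact (Finset.mem_sdiff.1 h1).2 (Finset.mem_sdiff.1 h2).1
  have hnn : ∀ t ∈ σ', ∀ i, (0 : ℝ) ≤ (t i : ℝ) := fun t ht i => by
    exact_mod_cast Φ.vert_nonneg t (Fan.IsFace.subset_vert Φ hface' ht) i
  have hPm : ∀ t ∈ P, t ∈ σ' ∧ t ∉ G' ∧ 0 < γ t := by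
    intro t ht
    rw [hPdef, Finset.mem_filter, Finset.mem_sdiff] at ht
    exact ⟨ht.1.1, ht.1.2, ht.2⟩
  have hNm : ∀ t ∈ N, t ∈ σ' ∧ t ∉ G' ∧ γ t < 0 := by
    intro t ht
    rw [hNdef, Finset.mem_filter, Finset.mem_sdiff] at ht
    exact ⟨ht.1.1, ht.1.2, ht.2⟩
  have hAm : ∀ t ∈ A, t ∈ σ' ∧ 0 < c' t - γ t := by
    intro t ht
    rw [hAdef, Finset.mem_filter, Finset.mem_sdiff] at ht
    exact ⟨hG'σ' ht.1.1, ht.2⟩
  have hDm : ∀ t ∈ D, t ∈ σ' ∧ c' t - γ t < 0 := by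
    intro t ht
    rw [hDdef, Finset.mem_filter, Finset.mem_sdiff] at ht
    exact ⟨hG'σ' ht.1.1, ht.2⟩
  have hGz : ∀ i, i ∉ cs G → ∀ t ∈ G, t i = 0 := by
    intro i hi t ht
    by_contra h1
    exact hi (by simp only [cs, Finset.mem_filter, Finset.mem_univ, true_and]; exact ⟨t, ht, h1⟩)
  -- the coordinate sums
  have hsum : ∀ i, i ∉ cs G → w i = ∑ t ∈ σ' \ G, γ t * (t i : ℝ) := by
    intro i hi
    have h1 := congrFun hw i
    rw [Finset.sum_apply] at h1
    simp only [Pi.smul_apply, toR_apply, smul_eq_mul] at h1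
    have h3 : ∑ t ∈ σ, c t * (t i : ℝ) = ∑ t ∈ σ', γ t * (t i : ℝ) := by
      rw [← Finset.sum_subset hss (f := fun t => γ t * (t i : ℝ))
        (fun t _ ht => by rw [hγn t ht, zero_mul])]
      exact Finset.sum_congr rfl fun t ht => by rw [hγσ t ht]
    rw [h1, h3, ← Finset.sum_sdiff hGσ']
    have h2 : ∑ t ∈ G, γ t * (t i : ℝ) = 0 := by
      refine Finset.sum_eq_zero fun t ht => ?_
      rw [hGz i hi t ht]
      simp
    rw [h2, add_zero]
  have hsum' : ∀ i, i ∉ cs G → w' i = ∑ t ∈ σ' \ G, c' t * (t i : ℝ) := by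
    intro i hi
    have h1 := congrFun hw' i
    rw [Finset.sum_apply] at h1
    simp only [Pi.smul_apply, toR_apply, smul_eq_mul] at h1
    rw [h1, ← Finset.sum_sdiff hGσ']
    have h2 : ∑ t ∈ G, c' t * (t i : ℝ) = 0 := by
      refine Finset.sum_eq_zero fun t ht => ?_
      rw [hGz i hi t ht]
      simp
    rw [h2, add_zero]
  have hdiff : ∀ i, i ∉ cs G → w' i - w i =
      ∑ t ∈ A, (c' t - γ t) * (t i : ℝ) + ∑ t ∈ D, (c' t - γ t) * (t i : ℝ) := by
    intro i hi
    rw [hsum i hi, hsum' i hi, ← Finset.sum_sub_distrib, hall, Finset.sum_union hdall,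
      ← Finset.sum_union hdAD]
    have h1 : ∑ t ∈ P ∪ N, (c' t * (t i : ℝ) - γ t * (t i : ℝ)) = 0 := by
      refine Finset.sum_eq_zero fun t ht => ?_
      rw [← hPN] at ht
      rw [(hF1 t ht).2.2.1]
      ring
    rw [h1, zero_add]
    exact Finset.sum_congr rfl fun t _ => by ring
  have hsplit4 : ∀ i, i ∉ cs G → w i = (∑ t ∈ P, γ t * (t i : ℝ) + ∑ t ∈ N, γ t * (t i : ℝ)) +
      (∑ t ∈ A, γ t * (t i : ℝ) + ∑ t ∈ D, γ t * (t i : ℝ)) := by
    intro i hi
    rw [hsum i hi, hall, Finset.sum_union hdall, Finset.sum_union hdPN, Finset.sum_union hdAD]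
  have hzs : ∀ (S : Finset (Fin n → ℤ)) (f : (Fin n → ℤ) → ℝ) (i : Fin n),
      (∀ t ∈ S, t i = 0) → ∑ t ∈ S, f t * (t i : ℝ) = 0 := by
    intro S f i hS
    refine Finset.sum_eq_zero fun t ht => ?_
    rw [hS t ht]
    simp
  -- (1)
  have hstep1 : monomial (ind P + ind A) (1 : ℝ) ∈ Φ.bad G ⊔ Ideal.span (Set.range Φ.theta) := by
    refine hStar (ind P + ind A) ?_
    intro i hi hiV
    have hmem : ∀ u, (u ∈ P ∨ u ∈ A) → u ∈ (ind P + ind A).support := by
      intro u hu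
      rw [Finsupp.mem_support_iff]
      simp only [Finsupp.add_apply, ind_apply]
      rcases hu with hu | hu <;> simp [hu]
    by_contra hcon
    push Not at hcon
    have hP0 : ∀ t ∈ P, t i = 0 := fun t ht => hcon t (hmem t (Or.inl ht))
    have hA0 : ∀ t ∈ A, t i = 0 := fun t ht => hcon t (hmem t (Or.inr ht))
    have h1 := hdiff i hi
    rw [(hone i hiV).1, (hone i hiV).2, hzs A _ i hA0, zero_add, sub_self] at h1
    have hD0 : ∀ t ∈ D, t i = 0 := by
      intro t ht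
      have h2 := (Finset.sum_eq_zero_iff_of_nonpos (fun t ht =>
        mul_nonpos_of_nonpos_of_nonneg (hDm t ht).2.le (hnn t (hDm t ht).1 i))).1 h1.symm t ht
      rcases mul_eq_zero.1 h2 with h3 | h3
      · linarith [(hDm t ht).2]
      · exact_mod_cast h3
    have h4 := hsplit4 i hi
    rw [hzs P _ i hP0, hzs A _ i hA0, hzs D _ i hD0, (hone i hiV).1] at h4
    have h5 : ∑ t ∈ N, γ t * (t i : ℝ) ≤ 0 := Finset.sum_nonpos fun t ht =>
      mul_nonpos_of_nonpos_of_nonneg (hNm t ht).2.2.le (hnn t (hNm t ht).1 i)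
    linarith
  -- (2)
  have hstep2 : ∀ i, i ∉ cs G →
      ∃ u ∈ (ind D + ind N + ind B + ind (apexR V Z σ' B) + m).support, u i ≠ 0 := by
    intro i hi
    have hmem : ∀ u, (u ∈ D ∨ u ∈ N ∨ u ∈ B ∨ u ∈ apexR V Z σ' B) →
        u ∈ (ind D + ind N + ind B + ind (apexR V Z σ' B) + m).support := by
      intro u hu
      rw [Finsupp.mem_support_iff]
      simp only [Finsupp.add_apply, ind_apply]
      rcases hu with hu | hu | hu | hu <;> simp [hu]
    by_cases hD : ∃ t ∈ D, t i ≠ 0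
    · obtain ⟨t, ht, hti⟩ := hD
      exact ⟨t, hmem t (Or.inl ht), hti⟩
    push Not at hD
    have hdi := hdiff i hi
    rw [hzs D _ i hD, add_zero] at hdi
    have hAnn : ∀ t ∈ A, 0 ≤ (c' t - γ t) * (t i : ℝ) := fun t ht =>
      mul_nonneg (hAm t ht).2.le (hnn t (hAm t ht).1 i)
    have hiV : i ∉ V := by
      intro hiV
      have h1 := hlt i hiV
      have h2 := Finset.sum_nonneg hAnn
      linarith
    obtain ⟨hw1, hw1'⟩ := hone i hiV
    rw [hw1, hw1', sub_self] at hdi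
    have hA0 : ∀ t ∈ A, t i = 0 := by
      intro t ht
      have h2 := (Finset.sum_eq_zero_iff_of_nonneg hAnn).1 hdi.symm t ht
      rcases mul_eq_zero.1 h2 with h3 | h3
      · linarith [(hAm t ht).2]
      · exact_mod_cast h3
    by_cases hN : ∃ t ∈ N, t i ≠ 0
    · obtain ⟨t, ht, hti⟩ := hN
      exact ⟨t, hmem t (Or.inr (Or.inl ht)), hti⟩
    push Not at hN
    by_cases hBi : ∃ u ∈ B, u i ≠ 0
    · obtain ⟨u, hu, hui⟩ := hBi
      exact ⟨u, hmem u (Or.inr (Or.inr (Or.inl hu))), hui⟩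
    push Not at hBi
    -- exactly one p in P
    have h1 := hsplit4 i hi
    rw [hzs N _ i hN, hzs A _ i hA0, hzs D _ i hD, hw1, add_zero, add_zero, add_zero] at h1
    have hc1 : ∀ t ∈ P, 1 ≤ γ t := by
      intro t ht
      obtain ⟨h3, h4, h5⟩ := hPm t ht
      obtain ⟨z, hz⟩ := (hF1 t (Finset.mem_sdiff.2 ⟨h3, h4⟩)).2.2.2
      rw [hz] at h5 ⊢
      have : 0 < z := by exact_mod_cast h5
      exact_mod_cast this
    have hex : ∃ p ∈ P, p i ≠ 0 := by
      by_contra hcon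
      push Not at hcon
      rw [hzs P _ i hcon] at h1
      linarith
    obtain ⟨p, hp, hpi⟩ := hex
    have hpi1 : 1 ≤ p i := by
      have : (0 : ℝ) ≤ (p i : ℝ) := hnn p (hPm p hp).1 i
      have : 0 ≤ p i := by exact_mod_cast this
      omega
    have hterm : ∀ t ∈ P, 0 ≤ γ t * (t i : ℝ) := fun t ht =>
      mul_nonneg (hPm t ht).2.2.le (hnn t (hPm t ht).1 i)
    have hsplit : ∑ t ∈ P, γ t * (t i : ℝ) = γ p * (p i : ℝ) + ∑ t ∈ P.erase p, γ t * (t i : ℝ) :=
      (Finset.add_sum_erase P (fun t => γ t * (t i : ℝ)) hp).symm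
    have hrest : ∀ t ∈ P.erase p, 0 ≤ γ t * (t i : ℝ) := fun t ht =>
      hterm t (Finset.mem_of_mem_erase ht)
    have hrest0 : 0 ≤ ∑ t ∈ P.erase p, γ t * (t i : ℝ) := Finset.sum_nonneg hrest
    have hpi1' : (1 : ℝ) ≤ (p i : ℝ) := by exact_mod_cast hpi1
    have hcp := hc1 p hp
    have hge : (p i : ℝ) ≤ γ p * (p i : ℝ) := by nlinarith
    have hpeq : (p i : ℝ) = 1 := by linarith
    have hz : ∑ t ∈ P.erase p, γ t * (t i : ℝ) = 0 := by linarith
    have hzero : ∀ t ∈ P.erase p, t i = 0 := by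
      intro t ht
      have h5 := (Finset.sum_eq_zero_iff_of_nonneg hrest).1 hz t ht
      have h6 := (hPm t (Finset.mem_of_mem_erase ht)).2.2
      rcases mul_eq_zero.1 h5 with h7 | h7
      · linarith
      · exact_mod_cast h7
    refine ⟨p, hmem p (Or.inr (Or.inr (Or.inr ?_))), hpi⟩
    unfold apexR
    rw [Finset.mem_filter]
    refine ⟨Finset.mem_sdiff.2 ⟨(hPm p hp).1,
      (hF1 p (Finset.mem_sdiff.2 ⟨(hPm p hp).1, (hPm p hp).2.1⟩)).1⟩, i, hiV,
      by exact_mod_cast hpeq, ?_, hBi⟩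
    intro t ht htp
    by_cases htG : t ∈ G
    · exact hGz i hi t htG
    have h7 : t ∈ (P ∪ N) ∪ (A ∪ D) := by
      rw [← hall]
      exact Finset.mem_sdiff.2 ⟨ht, htG⟩
    rcases Finset.mem_union.1 h7 with h7 | h7
    · rcases Finset.mem_union.1 h7 with h8 | h8
      · exact hzero t (Finset.mem_erase.2 ⟨htp, h8⟩)
      · exact hN t h8
    · rcases Finset.mem_union.1 h7 with h8 | h8
      · exact hA0 t h8
      · exact hD t h8
  -- (3)
  have hcards : P.card + N.card + (A.card + D.card) + G.card = σ'.card := by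
    rw [← Finset.card_union_of_disjoint hdPN, ← Finset.card_union_of_disjoint hdAD,
      ← Finset.card_union_of_disjoint hdall, ← hall, Finset.card_sdiff_add_card_eq_card hGσ']
  have hdeg : (ind P + ind A).degree + (ind D + ind N + ind B + ind (apexR V Z σ' B) + m).degree +
      G.card ≤ n := by
    rw [map_add, map_add, map_add, map_add, map_add, ind_degree, ind_degree, ind_degree,
      ind_degree, ind_degree, ind_degree, hmd]
    omega
  have key := h n Φ G (Fan.IsFace.subset Φ hface' hGσ') η hη (ind P + ind A)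
    (ind D + ind N + ind B + ind (apexR V Z σ' B) + m) hstep1 hstep2 hdeg
  rw [← Fan.Esum_star Φ hGσ' η hη]
  convert key using 2
  have hmul : ∀ a b : (Fin n → ℤ) →₀ ℕ, monomial (a + b) (1 : ℝ) =
      monomial a (1 : ℝ) * monomial b (1 : ℝ) := by
    intro a b
    rw [monomial_mul, mul_one]
  rw [hmul, hmul, hmul, hmul, hmul, hmul, monomial_ind, monomial_ind, monomial_ind, monomial_ind,
    monomial_ind, monomial_ind, hall, Finset.prod_union hdall, Finset.prod_union hdPN,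
    Finset.prod_union hdAD]
  ring

end Comp

end Mono
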